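import Mathlib
import Pool.Agent.helper60.POS.Defs
import Pool.Agent.helper91.POS.C
import Pool.Agent.helper12.POS.A

set_option autoImplicit false

/-!
# Module H: one stem works for uncountably many indices
-/

open Cardinal Order

namespace Pool.Agent.helper60.POS

section H

/-- Countable families in `ω₁` are strictly bounded. -/
theorem exists_gt_countable_family {V : Type} [Countable V]
    (g : V → (ℵ₁ : Cardinal.{0}).ord.ToType) : ∃ a, ∀ v, g v < a := by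
  have hreg : (ℵ₁ : Cardinal.{0}).IsRegular := Cardinal.isRegular_aleph_one
  have hcof : Order.cof (ℵ₁ : Cardinal.{0}).ord.ToType = ℵ₁ := by
    rw [Ordinal.cof_toType, hreg.cof_ord]
  by_contra hcon
  push Not at hcon
  have h1 : IsCofinal (Set.range g) := fun a => by
    obtain ⟨v, hv⟩ := hcon a
    exact ⟨g v, ⟨v, rfl⟩, hv⟩
  have h2 := Order.cof_le h1
  rw [hcof] at h2
  have h3 : #(Set.range g) ≤ ℵ₀ := Cardinal.mk_le_aleph0_iff.2 (Set.countable_range g).to_subtype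
  exact absurd (h2.trans h3) (not_le.2 Cardinal.aleph0_lt_aleph_one)

variable {ι : Type} [LinearOrder ι] [WellFoundedLT ι]
  {D : ι → (ℵ₁ : Cardinal.{0}).ord.ToType → ℕ → Set (Cnd ι (ℵ₁ : Cardinal.{0}).ord.ToType)}

theorem exists_unbounded_of {R : Type} [Preorder R] (hP : CCC (Pos D)) (hR : SigmaClosed R)
    (i : ι)
    (hadd : ∀ (p : Pos D) (a : (ℵ₁ : Cardinal.{0}).ord.ToType),
      ∃ p' ≤ p, a ∈ p'.raw.F i ∧ p'.raw.s i = p.raw.s i)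
    (p₀ : Pos D) (r₀ : R) :
    ∃ s ≤ (p₀, r₀), ∃ e : Finset ℕ, ∀ t ≤ s, ∀ γ : (ℵ₁ : Cardinal.{0}).ord.ToType,
      ∃ u ≤ t, ∃ a, γ < a ∧ ∃ v ≤ (p₀, r₀), u ≤ v ∧ a ∈ v.1.raw.F i ∧ v.1.raw.s i ⊆ e := by
  classical
  by_contra hcon
  push Not at hcon
  obtain ⟨E, hE⟩ : ∃ E : ℕ → Finset ℕ, Function.Surjective E := exists_surjective_nat _
  let U : ℕ → Pos D → R → Prop := fun n p r => ∃ γ : (ℵ₁ : Cardinal.{0}).ord.ToType,
    ∀ u ≤ (p, r), ∀ a, γ < a → ∀ v ≤ (p₀, r₀), u ≤ v → a ∈ v.1.raw.F i → ¬ v.1.raw.s i ⊆ E n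
  have hU : ∀ n p r p' r', p' ≤ p → r' ≤ r → U n p r → U n p' r' := by
    rintro n p r p' r' hp hr ⟨γ, hγ⟩
    exact ⟨γ, fun u hu => hγ u (hu.trans ⟨hp, hr⟩)⟩
  have hd : ∀ n, ∀ p ≤ p₀, ∀ r ≤ r₀, ∃ p' ≤ p, ∃ r' ≤ r, U n p' r' := by
    intro n p hp r hr
    obtain ⟨t, ht, γ, hγ⟩ := hcon (p, r) ⟨hp, hr⟩ (E n)
    exact ⟨t.1, ht.1, t.2, ht.2, γ, hγ⟩
  obtain ⟨r, hr, hA⟩ := easton hP hR p₀ r₀ U hU hd
  choose A hAc hAU hApre using hA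
  have hcount : Countable (Σ n, A n) := by
    have := fun n => (hAc n).to_subtype
    infer_instance
  choose γ hγ using fun x : (Σ n, A n) => (hAU x.1 x.2 x.2.2).2
  obtain ⟨a, ha⟩ := exists_gt_countable_family γ
  obtain ⟨p', hp', hpa, hps⟩ := hadd p₀ a
  obtain ⟨n, hn⟩ := hE (p₀.raw.s i)
  obtain ⟨p, hpA, t, htp', htp⟩ := hApre n p' hp'
  refine hγ ⟨n, p, hpA⟩ (t, r) ⟨htp, le_rfl⟩ a (ha ⟨n, p, hpA⟩) (p', r) ⟨hp', hr⟩
    ⟨htp', le_rfl⟩ hpa ?_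
  simp only [hps, hn]
  exact Finset.Subset.refl _

theorem exists_unbounded {R : Type} [Preorder R] (hR : SigmaClosed R) (p₀ : Pos D) (r₀ : R)
    (i : ι) : ∃ s ≤ (p₀, r₀), ∃ e : Finset ℕ, ∀ t ≤ s, ∀ γ : (ℵ₁ : Cardinal.{0}).ord.ToType,
      ∃ u ≤ t, ∃ a, γ < a ∧ ∃ v ≤ (p₀, r₀), u ≤ v ∧ a ∈ v.1.raw.F i ∧ v.1.raw.s i ⊆ e :=
  exists_unbounded_of (Pos.ccc D) hR i (fun p a => Pos.add_idx p i a) p₀ r₀

end H

end Pool.Agent.helper60.POS
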